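import Pool.Agent.Lib.MP_292d26_lc.Final

namespace Pool.Agent.Results.MP_292d26_lc.NPiffCollapse

open Pool.Agent.Lib.MP_292d26_lc

theorem result : chainMinor ∈ N68a2faeb.NP ↔ N68a2faeb.NP = N68a2faeb.coNP :=
  chainMinor_NP_iff

end Pool.Agent.Results.MP_292d26_lc.NPiffCollapse
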