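import Pool.Agent.Lib.MP_292d26_lc.Final

namespace Pool.Agent.Results.MP_292d26_lc.Sigma2Complete

open Pool.Agent.Lib.MP_292d26_lc

theorem result : N793a5b8e.IsCompleteFor Sigma2P chainMinor :=
  chainMinor_complete

end Pool.Agent.Results.MP_292d26_lc.Sigma2Complete
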